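import Pool.Agent.J4.H86.HB.TameB
import Pool.Agent.J4.H86.HB.Ideal
import Pool.Agent.J4.H86.HB.Poly

/-!
# MP_f981b0_an: hyperinvariant subspaces of compressions to almost reducing subspaces

Let `X` be a complex Banach space (no reflexivity or separability is needed). Let `T` be an operator on `X`
which satisfies an equation

    T ^ n + Z_{n-1} T ^ (n-1) + ... + Z_0 = Z_n,    n ≥ 1,

where `Z_0, ..., Z_n` commute with all operators commuting with `T` and are *good*: linked to (for example quasi-similar
to, or having as a direct summand) a compact operator or a *tame* operator. Then `T` is a multiple of the identity or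
has a nontrivial closed hyperinvariant subspace. In particular this holds if `T`, or `p(T)` for some nonconstant
polynomial `p`, is tame.

A tame operator is `Z = Q S J + K`, where `J : X → Y`, `Q : Y → X` are operators between Banach spaces with `Q J = 1`, so
that `Q S J` is the compression of the operator `S` on `Y` to a complemented subspace, `K` and the commutator of `S` with
the projection `J Q` have approximation numbers `O(m ^ (-ε))` (or `p`-summable for some `p > 0`), and in some open set `U`
which meets the spectrum of `Z` the resolvent of `S` exists off a rectifiable curve and grows at most polynomially at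
the curve. Nothing is supposed about `S` outside `U`.

Examples. `Z = N + K`, `N` a normal operator on a Hilbert space or a scalar type or generalised scalar operator on a
Banach space for which some disc that meets the spectrum of `N + K` meets the spectrum of `N` in a subset of a
rectifiable curve, `K` in any Schatten class (or `p`-nuclear). Toeplitz operators `T_f + K` on the spaces `H^p`, on Bergman
spaces, on spaces of several variables, and singular integral operators `a P + b (1 - P) + K` on weighted `L^p` spaces,
for symbols (Hoelder continuous, say, so that the commutators are small) whose values in a disc lie on a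
rectifiable curve. Here the operator need not be a compact perturbation of an operator with spectrum on the curve,
the spectrum may fill components of the complement, and there is no perturbation determinant.

Proof. (1) `Z` is a direct summand of `A = S + K'` on `Y`, `K'` with small approximation numbers (`summ_of`). Off
the curve `z - A` is Fredholm of index zero, so `z - Z` is a Fredholm operator; if it is not invertible, its kernel or
its range is hyperinvariant (`point`). (2) Otherwise `Z` has no spectrum in `U` off the curve. The other summand `Z₂` of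
`A` may have an open set of eigenvalues there. For every point `z₀` off the curve there is an operator `F` of finite
rank on the second summand for which `z₀ - A - F` is invertible (`idx`, a Schur complement). So the resolvent of `Z` is
a quotient of analytic functions with a denominator that may have zeros; being analytic in `U` off the curve it
grows at most like `exp (C / dist ^ k)` outside cones about the tangents of the curve (`DZ.growthZ`). (3) If the
spectrum of `Z` has two points in `U`, cut-off functions that are supported near these points, and whose `∂̄`-derivatives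
are concentrated on generic small boxes with sides crossing the curve transversally and vanish there to infinite
order, give two operators `S₁`, `S₂` in the bicommutant, not zero, with `S₁ S₂ = 0` (`Loc`; generic lines, cut-off functions
and separation are from project HI of the starting library). (4) If there is one point in `U` and another one
outside, use the Riesz projection. If the spectrum is one point `c`, the resolvent modulo the compact operators is
bounded by that of `S`, so a power of `Z - c` is compact, and Lomonosov's theorem applies. (5) Links: a lemma of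
Hoover. (6) If `T` has no hyperinvariant subspace then all `Z_j` are scalars, and `T` is algebraic.

Relation to other results. For Hilbert spaces and reductive `T` there is `MP_49c4d9_an.ReductiveCompressions` (this
collection). The starting files on Toeplitz operators and singular integral operators have no perturbation `K`;
those on perturbations of normal or scalar type operators need generic coupling constants, rank one, or a spectral measure of
dimension greater than one. Parts (`Ideal`, `Link`, `Poly`) were written by helper89.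
-/

set_option autoImplicit false

open Metric Set

namespace Pool.Agent.Results.MP_f981b0_an.AlmostReducedCompressions

section Defs

variable {X : Type} [NormedAddCommGroup X] [NormedSpace ℂ X]

/-- `T` is a multiple of the identity. -/
def IsScalar (T : X →L[ℂ] X) : Prop := ∃ c : ℂ, T = c • (1 : X →L[ℂ] X)

/-- `T` has a closed subspace, neither `{0}` nor the whole space, which is invariant under every
bounded operator commuting with `T`. -/
def HasHyperinvariant (T : X →L[ℂ] X) : Prop :=
  ∃ V : Submodule ℂ X, IsClosed (V : Set X) ∧ V ≠ ⊥ ∧ V ≠ ⊤ ∧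
    ∀ Q : X →L[ℂ] X, Q * T = T * Q → ∀ x ∈ V, Q x ∈ V

/-- The approximation numbers: the distance of `K` to the operators of rank at most `m`. -/
noncomputable def approxNumber (K : X →L[ℂ] X) (m : ℕ) : ℝ :=
  sInf {r : ℝ | ∃ G : X →L[ℂ] X, FiniteDimensional ℂ (LinearMap.range (G : X →ₗ[ℂ] X)) ∧
    Module.finrank ℂ (LinearMap.range (G : X →ₗ[ℂ] X)) ≤ m ∧ r = ‖K - G‖}

/-- The approximation numbers are `O(m ^ (-ε))` for some `ε > 0`, or `p`-summable for some `p > 0`. -/
def Small (K : X →L[ℂ] X) : Prop :=
  (∃ C ε : ℝ, 0 < ε ∧ ∀ m : ℕ, 1 ≤ m → approxNumber K m ≤ C / (m : ℝ) ^ ε) ∨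
  ∃ p : ℝ, 0 < p ∧ Summable fun m : ℕ => approxNumber K m ^ p

/-- A rectifiable curve: a Lipschitz image of the interval `[0, 1]` (self-intersections are allowed). -/
def RectifiableCurve (G : Set ℂ) : Prop :=
  ∃ (γ : ℝ → ℂ) (L : NNReal), LipschitzWith L γ ∧ G = γ '' Icc 0 1

/-- In `U` the resolvent of `S` exists off `G` and grows at most polynomially at `G`. -/
def PolyGrowth (S : X →L[ℂ] X) (G U : Set ℂ) : Prop :=
  ∃ (C : ℝ) (k : ℕ), ∀ z ∈ U, z ∉ G → z ∈ resolventSet ℂ S ∧ ‖resolvent S z‖ ≤ C / infDist z G ^ k

/-- `Z = Q S J + K` with `Q J = 1`, where `K` and the commutator of `S` with the projection `J Q` are small, and in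
an open set `U` which meets the spectrum of `Z` the resolvent of `S` exists off a rectifiable curve and grows at
most polynomially at the curve. -/
def Tame (Z : X →L[ℂ] X) : Prop :=
  ∃ (Y : Type) (_ : NormedAddCommGroup Y) (_ : NormedSpace ℂ Y) (_ : CompleteSpace Y)
    (J : X →L[ℂ] Y) (Q : Y →L[ℂ] X) (S : Y →L[ℂ] Y) (K : X →L[ℂ] X) (G U : Set ℂ),
    Q.comp J = ContinuousLinearMap.id ℂ X ∧ Z = Q.comp (S.comp J) + K ∧ Small K ∧
    Small (S * J.comp Q - J.comp Q * S) ∧ RectifiableCurve G ∧ IsOpen U ∧ PolyGrowth S G U ∧
    (spectrum ℂ Z ∩ U).Nonempty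

/-- `Z` is linked to `Z'`: `A Z = Z' A` and `Z B = B Z'` for some `A` with dense range and some injective `B`. -/
def Linked {X' : Type} [NormedAddCommGroup X'] [NormedSpace ℂ X'] (Z : X →L[ℂ] X)
    (Z' : X' →L[ℂ] X') : Prop :=
  ∃ (A : X →L[ℂ] X') (B : X' →L[ℂ] X), DenseRange A ∧ Function.Injective B ∧
    A.comp Z = Z'.comp A ∧ Z.comp B = B.comp Z'

/-- `Z` is linked to a compact or tame operator on a nonzero Banach space. -/
def Good (Z : X →L[ℂ] X) : Prop :=
  ∃ (X' : Type) (_ : NormedAddCommGroup X') (_ : NormedSpace ℂ X') (_ : CompleteSpace X')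
    (Z' : X' →L[ℂ] X'), Nontrivial X' ∧ Linked Z Z' ∧ (IsCompactOperator Z' ∨ Tame Z')

end Defs

section aux

variable {X : Type} [NormedAddCommGroup X] [NormedSpace ℂ X]

theorem bdd (K : X →L[ℂ] X) (m : ℕ) :
    BddBelow {r : ℝ | ∃ G : X →L[ℂ] X, FiniteDimensional ℂ (LinearMap.range (G : X →ₗ[ℂ] X)) ∧
      Module.finrank ℂ (LinearMap.range (G : X →ₗ[ℂ] X)) ≤ m ∧ r = ‖K - G‖} := by
  refine ⟨0, ?_⟩
  rintro r ⟨G, -, -, rfl⟩
  exact norm_nonneg _

theorem ne (K : X →L[ℂ] X) (m : ℕ) :
    {r : ℝ | ∃ G : X →L[ℂ] X, FiniteDimensional ℂ (LinearMap.range (G : X →ₗ[ℂ] X)) ∧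
      Module.finrank ℂ (LinearMap.range (G : X →ₗ[ℂ] X)) ≤ m ∧ r = ‖K - G‖}.Nonempty := by
  have h0 : LinearMap.range ((0 : X →L[ℂ] X) : X →ₗ[ℂ] X) = ⊥ := LinearMap.range_zero
  refine ⟨‖K - 0‖, 0, ?_, ?_, rfl⟩
  · rw [h0]; infer_instance
  · rw [h0]; simp

theorem approx_nonneg (K : X →L[ℂ] X) (m : ℕ) : 0 ≤ approxNumber K m := by
  refine le_csInf (ne K m) ?_
  rintro r ⟨G, -, -, rfl⟩
  exact norm_nonneg _

theorem approx_anti (K : X →L[ℂ] X) {m n : ℕ} (h : m ≤ n) :
    approxNumber K n ≤ approxNumber K m := by
  refine csInf_le_csInf (bdd K n) (ne K m) ?_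
  rintro r ⟨G, h1, h2, rfl⟩
  exact ⟨G, h1, h2.trans h, rfl⟩

theorem decay_of {K : X →L[ℂ] X}
    (h : ∃ C ε : ℝ, 0 < ε ∧ ∀ m : ℕ, 1 ≤ m → approxNumber K m ≤ C / (m : ℝ) ^ ε) :
    Pool.Agent.W402.HI.ApproxDecay K := by
  obtain ⟨C, ε, hε, h⟩ := h
  refine ⟨C + 1, ε, hε, fun m hm => ?_⟩
  have hm0 : (0 : ℝ) < m := by exact_mod_cast hm
  have h1 : approxNumber K m < (C + 1) / (m : ℝ) ^ ε := by
    refine (h m hm).trans_lt ?_
    have : (0 : ℝ) < (m : ℝ) ^ ε := by positivity
    gcongr
    linarith
  obtain ⟨r, ⟨G, hG1, hG2, rfl⟩, hr⟩ := exists_lt_of_csInf_lt (ne K m) h1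
  exact ⟨G, hG1, hG2, hr.le⟩

theorem decay_of_small {K : X →L[ℂ] X} (h : Small K) : Pool.Agent.W402.HI.ApproxDecay K := by
  rcases h with h | ⟨p, hp, hs⟩
  · exact decay_of h
  apply decay_of
  set S : ℝ := ∑' m : ℕ, approxNumber K m ^ p with hS
  have hS0 : 0 ≤ S := tsum_nonneg fun m => Real.rpow_nonneg (approx_nonneg K m) _
  refine ⟨S ^ (1 / p), 1 / p, by positivity, fun m hm => ?_⟩
  have hm0 : (0 : ℝ) < m := by exact_mod_cast hm
  have h1 : (m : ℝ) * approxNumber K m ^ p ≤ S := by
    calc (m : ℝ) * approxNumber K m ^ p = ∑ _i ∈ Finset.range m, approxNumber K m ^ p := by simp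
      _ ≤ ∑ i ∈ Finset.range m, approxNumber K i ^ p := by
          refine Finset.sum_le_sum fun i hi => ?_
          exact Real.rpow_le_rpow (approx_nonneg K m) (approx_anti K (Finset.mem_range.1 hi).le) hp.le
      _ ≤ S := hs.sum_le_tsum _ fun i _ => Real.rpow_nonneg (approx_nonneg K i) _
  have h2 : approxNumber K m ^ p ≤ S / m := by
    rw [le_div_iff₀ hm0]
    linarith
  have h3 : (approxNumber K m ^ p) ^ (1 / p) ≤ (S / m) ^ (1 / p) :=
    Real.rpow_le_rpow (Real.rpow_nonneg (approx_nonneg K m) _) h2 (by positivity)
  rw [← Real.rpow_mul (approx_nonneg K m), mul_one_div_cancel hp.ne', Real.rpow_one,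
    Real.div_rpow hS0 hm0.le] at h3
  exact h3

/-- tame operators are tame in the sense of the library -/
theorem tame_of {Z : X →L[ℂ] X} (h : Tame Z) : Pool.Agent.J4.H86.HB.Tame Z := by
  obtain ⟨Y, i1, i2, i3, J, Q, S, K, G, U, h1, h2, h3, h4, ⟨γ, L, h5, rfl⟩, h6, ⟨C, k, h7⟩,
    ⟨c, hc1, hc2⟩⟩ := h
  exact ⟨Y, i1, i2, i3, J, Q, S, K, γ, L, U, C, k, h1, h2, decay_of_small h3, decay_of_small h4, h5,
    h6, h7, c, hc2, hc1⟩

/-- good operators are scalar or have hyperinvariant subspaces -/
theorem good [CompleteSpace X] {Z : X →L[ℂ] X} (h : Good Z) : IsScalar Z ∨ HasHyperinvariant Z := by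
  obtain ⟨X', i1, i2, i3, Z', hnt, ⟨A, B, h1, h2, h3, h4⟩, h5⟩ := h
  have h6 : Pool.Agent.W402.HI.IsScalar Z' ∨ Pool.Agent.W402.HI.HasHyp Z' := by
    rcases h5 with h5 | h5
    · by_cases h7 : Pool.Agent.W402.HI.IsScalar Z'
      · exact Or.inl h7
      · exact Or.inr (Pool.Agent.W577.HI.G1.main X' Z' h5 h7)
    · exact Pool.Agent.J4.H86.HB.tame Pool.Agent.J4.H86.HB.ideal X' Z' (tame_of h5)
  exact Pool.Agent.J4.H86.HB.link X X' Z Z' hnt ⟨A, B, h1, h2, h3, h4⟩ h6

/-- a compact or tame operator is good -/
theorem good_self [Nontrivial X] [CompleteSpace X] {Z : X →L[ℂ] X} (h : IsCompactOperator Z ∨ Tame Z) :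
    Good Z :=
  ⟨X, inferInstance, inferInstance, inferInstance, Z, inferInstance,
    ⟨ContinuousLinearMap.id ℂ X, ContinuousLinearMap.id ℂ X, Function.surjective_id.denseRange,
      Function.injective_id, rfl, rfl⟩, h⟩

/-- scalars are good -/
theorem good_scalar [Nontrivial X] [CompleteSpace X] (c : ℂ) : Good (c • (1 : X →L[ℂ] X)) := by
  obtain ⟨x, hx⟩ := exists_ne (0 : X)
  obtain ⟨f, -, hf⟩ := exists_dual_vector ℂ x (norm_ne_zero_iff.2 hx)
  have hfx : f x ≠ 0 := by
    rw [hf]
    simpa using hx
  refine ⟨ℂ, inferInstance, inferInstance, inferInstance, c • (1 : ℂ →L[ℂ] ℂ), inferInstance,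
    ⟨f, (ContinuousLinearMap.id ℂ ℂ).smulRight x, ?_, ?_, ?_, ?_⟩, Or.inl ?_⟩
  · refine Function.Surjective.denseRange fun y => ⟨(y / f x) • x, ?_⟩
    rw [map_smul, smul_eq_mul, div_mul_cancel₀ _ hfx]
  · intro a b hab
    have h1 : a • x = b • x := hab
    have h2 : (a - b) • x = 0 := by rw [sub_smul, h1, sub_self]
    rcases smul_eq_zero.1 h2 with h3 | h3
    · exact sub_eq_zero.1 h3
    · exact absurd h3 hx
  · ext y
    simp
  · ext
    simp
  · exact isCompactOperator_of_locallyCompactSpace_dom _

end aux

/-- **Theorem.** Let `T` be an operator on a complex Banach space `X` with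
`T ^ n + Z_{n-1} T ^ (n-1) + ... + Z_0 = Z_n`, `n ≥ 1`, where `Z_0, ..., Z_n` are good and commute with all operators
commuting with `T`. Then `T` is a multiple of the identity or has a nontrivial closed hyperinvariant subspace. -/
theorem result (X : Type) [NormedAddCommGroup X] [NormedSpace ℂ X] [CompleteSpace X]
    (T : X →L[ℂ] X) (n : ℕ) (hn : 1 ≤ n) (Z : ℕ → (X →L[ℂ] X))
    (hcomm : ∀ j ≤ n, ∀ Q : X →L[ℂ] X, Q * T = T * Q → Q * Z j = Z j * Q)
    (hgood : ∀ j ≤ n, Good (Z j))
    (hT : T ^ n + ∑ j ∈ Finset.range n, Z j * T ^ j = Z n) :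
    IsScalar T ∨ HasHyperinvariant T := by
  refine Pool.Agent.J4.H86.HB.poly X T n Z hn (fun j hj => hcomm j hj.le) (fun j hj => ?_) ?_
  · exact good (hgood j hj.le)
  · rw [hT]
    exact good (hgood n le_rfl)

/-- The special case of one operator `p(T)`, for example `p(T) = T`. -/
theorem polynomial (X : Type) [NormedAddCommGroup X] [NormedSpace ℂ X] [CompleteSpace X]
    (T : X →L[ℂ] X) (p : Polynomial ℂ) (hp : p.Monic) (hp1 : 1 ≤ p.natDegree)
    (hT : IsCompactOperator (Polynomial.aeval T p) ∨ Tame (Polynomial.aeval T p)) :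
    IsScalar T ∨ HasHyperinvariant T := by
  rcases subsingleton_or_nontrivial X with hs | hn
  · left
    exact ⟨0, ContinuousLinearMap.ext fun x => Subsingleton.elim _ _⟩
  refine result X T p.natDegree hp1
    (fun j => if j < p.natDegree then p.coeff j • (1 : X →L[ℂ] X) else Polynomial.aeval T p) ?_ ?_ ?_
  · intro j hj Q hQ
    by_cases h : j < p.natDegree
    · simp only [h, if_true]
      rw [mul_smul_comm, smul_mul_assoc, mul_one, one_mul]
    · simp only [h, if_false]
      have h1 : Commute Q T := hQ
      have h2 : Commute Q (Polynomial.aeval T p) := by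
        have h3 : T ∈ Subalgebra.centralizer ℂ {Q} := by
          rw [Subalgebra.mem_centralizer_iff]
          rintro _ rfl
          exact h1.eq
        have h4 : Polynomial.aeval T p ∈ Subalgebra.centralizer ℂ {Q} :=
          Polynomial.aeval_mem_adjoin_singleton ℂ T |> fun h =>
            Algebra.adjoin_le (S := Subalgebra.centralizer ℂ {Q}) (by
              rintro _ rfl
              exact h3) h
        rw [Subalgebra.mem_centralizer_iff] at h4
        exact h4 Q rfl
      exact h2.eq
  · intro j hj
    by_cases h : j < p.natDegree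
    · simp only [h, if_true]
      exact good_scalar _
    · simp only [h, if_false]
      exact good_self hT
  · simp only [lt_irrefl, if_false]
    rw [Polynomial.aeval_eq_sum_range, Finset.sum_range_succ, hp.coeff_natDegree, one_smul, add_comm]
    congr 1
    refine Finset.sum_congr rfl fun j hj => ?_
    rw [if_pos (Finset.mem_range.1 hj), smul_mul_assoc, one_mul]

end Pool.Agent.Results.MP_f981b0_an.AlmostReducedCompressions
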