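import Pool.Agent.J4.H89.PosF

/-!
# Almost every member of an ergodic family of positive operators on `ℓ²(G)` has a nontrivial closed invariant subspace

Let a countable group `G` with at least two elements act ergodically on a probability space `(Ω, P)`.  Let
`T ω` (`ω ∈ Ω`) be bounded operators on the complex Hilbert space `ℓ²(G)` whose matrix entries
`t ω i j = ⟨T ω δ_j, δ_i⟩` are nonnegative reals, measurable in `ω`, and stationary:
`t (g ω) (g i) (g j) = t ω i j`.  No bound on the norms, on the range or on the group is assumed.

Then almost every `T ω` has a nontrivial closed invariant subspace.  More precisely, either almost every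
`T ω` has a nontrivial closed hyperinvariant subspace, or there is a constant `c ≥ 0` such that for almost
every `ω` the matrix of `T ω` has all diagonal entries equal to `c` and has no cycles: for `i ≠ j` not both
`T ω ^ m` has a nonzero entry at `(i, j)` and `T ω ^ n` one at `(j, i)`.  In particular the first alternative
holds if some diagonal entry is not almost surely constant, or if with positive probability there is a cycle
through two different points.

Example: the transition operator, on `ℓ²(G)`, of a random walk in an ergodic random environment on any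
countable group (if it is bounded on `ℓ²(G)`, as for bounded range).

Proof.  The norm is an invariant function, so it is bounded off a null set.  The bounded covariant fields form
a C*-algebra with the trace `τ(T) = E t 1 1`.  With the library of the starting files for the theorem of
Haagerup and Schultz we show a moment criterion: if `τ((T - τ(T))^m) ≠ 0` for some `m`, then almost every
`T ω` has a nontrivial closed hyperinvariant subspace.  (If not, then `(1/k) log |exp(k z Q)|² → 0` in the
2-norm for `Q = S` and for `Q = S^m - τ(S^m)`, `S = T - τ(T)`; this gives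
`τ log(1 + Λ^(2k) |Q^k|²) = o(k)` for all `Λ`, and the binomial expansion of
`(S^m - Q)^(2k) = τ(S^m)^(2k)` gives a contradiction.)  In the other case `τ(T^n) = τ(T)^n` for all `n`, and by
positivity `t 1 1` is a constant `c` and the diagonal entries of `T ω ^ n` are `c^n`; so there are no cycles,
and the functions supported on the points that can be reached from a suitable point form a nontrivial
invariant subspace.
-/

set_option autoImplicit false
open MeasureTheory

namespace Pool.Agent.Results.MP_f981b0_an.PositiveRandomOperators

/-- the Hilbert space of square summable complex functions on `G` -/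
abbrev L2 (G : Type) : Type := lp (fun _ : G => ℂ) 2

/-- `G` acts on the probability space `(Ω, P)` by measure-preserving maps, and every measurable set which is
invariant under all of them has probability zero or one -/
structure ErgodicAction (G : Type) {Ω : Type} [Group G] [MeasurableSpace Ω] [MulAction G Ω]
    (P : Measure Ω) : Prop where
  preserving : ∀ g : G, MeasurePreserving (fun ω : Ω => g • ω) P P
  ergodic : ∀ B : Set Ω, MeasurableSet B → (∀ g : G, (fun ω : Ω => g • ω) ⁻¹' B = B) →
    P B = 0 ∨ P Bᶜ = 0

/-- the matrix entry of `A` in row `i` and column `j`: the value at `i` of the image of the indicator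
function of `j` -/
noncomputable def entry {G : Type} [DecidableEq G] (A : L2 G →L[ℂ] L2 G) (i j : G) : ℂ :=
  (A (lp.single 2 j (1 : ℂ)) : G → ℂ) i

/-- the matrix entries of `A` are nonnegative real numbers -/
def Nonneg {G : Type} [DecidableEq G] (A : L2 G →L[ℂ] L2 G) : Prop :=
  ∀ i j : G, 0 ≤ (entry A i j).re ∧ (entry A i j).im = 0

/-- the matrix entries of `T ω` are measurable in `ω` and stationary: `t (g ω) (g i) (g j) = t ω i j` -/
structure Stationary {G Ω : Type} [Group G] [DecidableEq G] [MeasurableSpace Ω] [MulAction G Ω]
    (T : Ω → (L2 G →L[ℂ] L2 G)) : Prop where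
  measurable : ∀ i j : G, Measurable fun ω => entry (T ω) i j
  stationary : ∀ (g i j : G) (ω : Ω), entry (T (g • ω)) (g * i) (g * j) = entry (T ω) i j

/-- all diagonal entries of `A` are `c`, and the matrix has no cycles: for `i ≠ j` the entry of `A ^ m` at
`(i, j)` or the entry of `A ^ n` at `(j, i)` is zero -/
def Acyclic {G : Type} [DecidableEq G] (c : ℝ) (A : L2 G →L[ℂ] L2 G) : Prop :=
  (∀ i : G, entry A i i = c) ∧
    ∀ i j : G, i ≠ j → ∀ m n : ℕ, entry (A ^ m) i j = 0 ∨ entry (A ^ n) j i = 0

/-- `A` has a closed subspace, neither `{0}` nor the whole space, which is invariant under `A` -/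
def HasInvariantSubspace {H : Type} [NormedAddCommGroup H] [NormedSpace ℂ H] (A : H →L[ℂ] H) :
    Prop :=
  ∃ V : Submodule ℂ H, IsClosed (V : Set H) ∧ V ≠ ⊥ ∧ V ≠ ⊤ ∧ ∀ f ∈ V, A f ∈ V

/-- `A` has a closed subspace, neither `{0}` nor the whole space, which is invariant under every bounded
operator commuting with `A` -/
def HasHyperinvariantSubspace {H : Type} [NormedAddCommGroup H] [NormedSpace ℂ H] (A : H →L[ℂ] H) :
    Prop :=
  ∃ V : Submodule ℂ H, IsClosed (V : Set H) ∧ V ≠ ⊥ ∧ V ≠ ⊤ ∧
    ∀ Q : H →L[ℂ] H, (∀ f, Q (A f) = A (Q f)) → ∀ f ∈ V, Q f ∈ V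

theorem result (G Ω : Type) [Group G] [Countable G] [Nontrivial G] [DecidableEq G]
    [MeasurableSpace Ω] [MulAction G Ω] (P : Measure Ω) [IsProbabilityMeasure P]
    (hP : ErgodicAction G P) (T : Ω → (L2 G →L[ℂ] L2 G)) (hT : Stationary T)
    (hpos : ∀ ω : Ω, Nonneg (T ω)) :
    (∀ᵐ ω ∂P, HasInvariantSubspace (T ω)) ∧
    ((∀ᵐ ω ∂P, HasHyperinvariantSubspace (T ω)) ∨
      ∃ c : ℝ, 0 ≤ c ∧ ∀ᵐ ω ∂P, Acyclic c (T ω)) := by
  have hb : ∀ j : G, Pool.Agent.W611.RO.stb G j = lp.single 2 j (1 : ℂ) := by
    intro j
    apply lp.ext
    funext i
    rw [Pool.Agent.W611.RO.stb_apply, lp.single_apply]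
    by_cases h : i = j
    · subst h
      simp
    · rw [if_neg h, Pi.single_eq_of_ne h]
  have he : ∀ (A : L2 G →L[ℂ] L2 G) (i j : G), entry A i j
      = inner ℂ (Pool.Agent.W611.RO.stb G i) (A (Pool.Agent.W611.RO.stb G j)) := by
    intro A i j
    rw [Pool.Agent.W611.RO.stb_coord, hb j]
    rfl
  have hC : Pool.Agent.J4.H89.Mom.Covf T := by
    refine ⟨fun i j => ?_, fun g i j ω => ?_⟩
    · simp only [← he]
      exact hT.measurable i j
    · rw [← he, ← he]
      exact hT.stationary g i j ω
  have hp : ∀ ω, Pool.Agent.J4.H89.Mom.PosM (T ω) := by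
    intro ω i j
    rw [← he]
    exact hpos ω i j
  have hd := Pool.Agent.J4.H89.Mom.pos_dich ⟨hP.preserving, hP.ergodic⟩ hC hp
  constructor
  · rcases hd with h | ⟨c, h⟩
    · filter_upwards [h] with ω hω
      exact Pool.Agent.J4.H89.Mom.HasHyp.inv hω
    · filter_upwards [h] with ω hω
      exact Pool.Agent.J4.H89.Mom.acyc_inv (hp ω) hω
  · rcases hd with h | ⟨c, h⟩
    · left
      filter_upwards [h] with ω hω
      obtain ⟨V, h1, h2, h3, h4⟩ := hω
      exact ⟨V, h1, h2, h3, fun Q hQ => h4 Q (ContinuousLinearMap.ext hQ)⟩
    · right
      have hne : (Filter.NeBot (ae P)) := inferInstance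
      refine ⟨c, ?_, ?_⟩
      · obtain ⟨ω, hω⟩ := h.exists
        have h1 := hω 1 1
        rw [pow_one, pow_one] at h1
        rw [← h1]
        exact (hp ω 1 1).1
      · filter_upwards [h] with ω hω
        refine ⟨fun i => ?_, fun i j hij m n => ?_⟩
        · have h1 := hω 1 i
          rw [pow_one, pow_one] at h1
          rw [he, (hp ω).eq, h1]
        · rw [he, he, ((hp ω).pow m).eq, ((hp ω).pow n).eq]
          rcases Pool.Agent.J4.H89.Mom.acyc (hp ω) hω hij m n with h1 | h1
          · left
            rw [h1]
            rfl
          · right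
            rw [h1]
            rfl

end Pool.Agent.Results.MP_f981b0_an.PositiveRandomOperators
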