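import Pool.Agent.J4.H86.RD.MAIN
import Pool.Agent.J4.H86.RD.CMP
import Pool.Agent.J4.H86.RD.HB
import Pool.Agent.J4.H86.RD.LP2

/-!
# Random diagonal operators plus operators small or compact on `ℓ^s` and `ℓ^q`

Let `1 < s < 2` and `1/s + 1/q = 1`. An operator with independent random diagonal entries whose
off-diagonal part is, outside finitely many rows and columns, small as an OPERATOR on `ℓ^s` and `ℓ^q`
(relative to the size `σ x` of the randomness, which may tend to zero) has almost surely a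
nontrivial closed hyperinvariant subspace. No absolute summability of the matrix is supposed.

Proof: the inverse `G` of the restriction of `T - z` to a finite set of sites satisfies
`E |G(x,y)|^s < ∞` (here the disorder is truly complex), the decoupling inequality
`E |λ x - z|^s |G(x,y)|^s ≥ c E |G(x,y)|^s` and the equation `(λ x - z) G(x,y) = δ - (B G(·,y)) x`
bound `E ∑ x, |G(x,y)|^s` uniformly in the finite set and in `z`; Fatou, weak limits and
the Lusin-Souslin theorem give local resolvents of `T` and of its adjoint, integrable in `z` over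
discs; the Cauchy-Pompeiu formula gives the subspace.
-/

set_option autoImplicit false
open MeasureTheory ProbabilityTheory
open scoped ENNReal

namespace Pool.Agent.Results.MP_f981b0_an.RandomDiagonalOperatorNorm

section defs

variable {X : Type*} [NormedAddCommGroup X] [NormedSpace ℂ X] {ι : Type*} [DecidableEq ι]
variable {Ω : Type*} [MeasurableSpace Ω]

/-- `T` has a closed subspace other than `0` and `X` that is invariant under every bounded
operator commuting with `T`. -/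
def HasHyperinvariantSubspace (T : X →L[ℂ] X) : Prop :=
  ∃ M : Submodule ℂ X, IsClosed (M : Set X) ∧ M ≠ ⊥ ∧ M ≠ ⊤ ∧
    ∀ S : X →L[ℂ] X, S ∘L T = T ∘L S → ∀ x ∈ M, S x ∈ M

/-- `(e_i), (f_i)` is a biorthogonal system, the `e_i` span a dense subspace, the functionals `f_i`
are total, and `‖∑ c_i e_i‖ ≤ K ‖c‖_s`, `‖∑ c_i f_i‖ ≤ K ‖c‖_s` for all finite sums. -/
structure System (s : ℝ) (e : ι → X) (f : ι → (X →L[ℂ] ℂ)) : Prop where
  biorthogonal : ∀ x y, f x (e y) = if x = y then 1 else 0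
  dense : Dense (Submodule.span ℂ (Set.range e) : Set X)
  total : ∀ v, (∀ i, f i v = 0) → v = 0
  upper : ∃ K : ℝ, ∀ (A : Finset ι) (c : ι → ℂ),
    ‖∑ x ∈ A, c x • e x‖ ≤ K * (∑ x ∈ A, ‖c x‖ ^ s) ^ (1 / s) ∧
    ‖∑ x ∈ A, c x • f x‖ ≤ K * (∑ x ∈ A, ‖c x‖ ^ s) ^ (1 / s)

/-- The `lam i` are independent complex random variables, `E (σ i / |lam i - b|)^s ≤ 1` for
every complex number `b`, `σ i > 0`. -/
structure Disorder (P : Measure Ω) (s : ℝ) (σ : ι → ℝ) (lam : ι → Ω → ℂ) : Prop where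
  pos : ∀ i, 0 < σ i
  meas : ∀ i, Measurable (lam i)
  indep : iIndepFun lam P
  bound : ∀ (i : ι) (b : ℂ), ∫⁻ ω, (ENNReal.ofReal (σ i) * ‖lam i ω - b‖ₑ⁻¹) ^ s ∂P ≤ 1

/-- The rows of `B` are `q`-summable and, outside a finite set `F` of rows, the off-diagonal part
of `B` divided by `σ` has `‖·‖^s ≤ κ` as an operator on `ℓ^s`. -/
structure SmallOffDiagonal (s q κ : ℝ) (σ : ι → ℝ) (B : ι → ι → ℂ) : Prop where
  row : ∀ x, Summable (fun w => ‖B x w‖ ^ q)
  small : ∃ F : Finset ι, ∀ (A : Finset ι) (u : ι → ℂ),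
    ∑ x ∈ A \ F, (‖∑ w ∈ A.erase x, B x w * u w‖ / σ x) ^ s ≤ κ * ∑ w ∈ A, ‖u w‖ ^ s

/-- The rows of `B` are `q`-summable and the off-diagonal part of `B`, with the rows in `F` omitted,
tends to zero as an operator on `ℓ^s` along the finite sets `F` (so it is compact on `ℓ^s`). -/
structure CompactOffDiagonal (s q : ℝ) (B : ι → ι → ℂ) : Prop where
  row : ∀ x, Summable (fun w => ‖B x w‖ ^ q)
  vanish : ∀ κ : ℝ, 0 < κ → ∃ F : Finset ι, ∀ (A : Finset ι) (u : ι → ℂ),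
    ∑ x ∈ A \ F, ‖∑ w ∈ A.erase x, B x w * u w‖ ^ s ≤ κ * ∑ w ∈ A, ‖u w‖ ^ s

/-- The matrix of `T ω` is almost surely the diagonal matrix with entries `lam i ω` plus the
off-diagonal part of the deterministic matrix `B`. -/
def HasEntries (P : Measure Ω) (e : ι → X) (f : ι → (X →L[ℂ] ℂ)) (lam : ι → Ω → ℂ)
    (B : ι → ι → ℂ) (T : Ω → (X →L[ℂ] X)) : Prop :=
  ∀ᵐ ω ∂P, ∀ x y, f x (T ω (e y)) = if x = y then lam x ω else B x y

/-- Whenever `(e, f)` is a system for `s`, `lam` a disorder of size `σ` and `T ω` are bounded operators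
with diagonal entries `lam` and off-diagonal entries `B`, almost every `T ω` has a nontrivial closed
hyperinvariant subspace. -/
def AlmostSurelyHyperinvariant.{u, v, w} {ι : Type v} [DecidableEq ι] (s : ℝ) (σ : ι → ℝ)
    (B : ι → ι → ℂ) : Prop :=
  ∀ (X : Type u) [NormedAddCommGroup X] [NormedSpace ℂ X] [CompleteSpace X] (Ω : Type w)
    [MeasurableSpace Ω] (P : Measure Ω) [IsProbabilityMeasure P] (e : ι → X)
    (f : ι → (X →L[ℂ] ℂ)) (lam : ι → Ω → ℂ) (T : Ω → (X →L[ℂ] X)),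
    System s e f → Disorder P s σ lam → HasEntries P e f lam B T →
    ∀ᵐ ω ∂P, HasHyperinvariantSubspace (T ω)

/-- (1) random diagonals plus operators small on `ℓ^s` and `ℓ^q` -/
def SmallPerturbations.{u, v, w} : Prop :=
  ∀ (ι : Type v) [DecidableEq ι] [Countable ι] [Nontrivial ι] (s q κ : ℝ) (σ : ι → ℝ)
    (B : ι → ι → ℂ), s.HolderConjugate q → s < 2 → 512 * κ < 1 →
    SmallOffDiagonal s q κ σ B → SmallOffDiagonal s q κ σ (fun x y => B y x) →
    AlmostSurelyHyperinvariant.{u, v, w} s σ B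

/-- (2) compact operators: no size condition, and the disorder may be small and tend to zero -/
def CompactPerturbations.{u, v, w} : Prop :=
  ∀ (ι : Type v) [DecidableEq ι] [Countable ι] [Nontrivial ι] (s q : ℝ) (B : ι → ι → ℂ),
    s.HolderConjugate q → s < 2 →
    CompactOffDiagonal s q B → CompactOffDiagonal s q (fun x y => B y x) →
    ∀ ε : ℝ, 0 < ε → ∃ σ : ι → ℝ, (∀ i, 0 < σ i ∧ σ i ≤ ε) ∧
      Filter.Tendsto σ Filter.cofinite (nhds 0) ∧ AlmostSurelyHyperinvariant.{u, v, w} s σ B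

/-- (3) laws with bounded densities -/
def BoundedDensities : Prop :=
  ∀ (s ρ σ : ℝ) (μ : Measure ℂ) [IsProbabilityMeasure μ], 0 < s → s < 2 → 0 < ρ → 0 < σ →
    μ ≤ ENNReal.ofReal ρ • (volume : Measure ℂ) →
    2 / (2 - s) * (Real.pi * ρ * σ ^ 2) ^ (s / 2) ≤ 1 →
    ∀ b : ℂ, ∫⁻ u, (ENNReal.ofReal σ * ‖u - b‖ₑ⁻¹) ^ s ∂μ ≤ 1

/-- (4) orthonormal bases are systems -/
def OrthonormalBases.{u, v} : Prop :=
  ∀ (H : Type u) [NormedAddCommGroup H] [InnerProductSpace ℂ H] [CompleteSpace H] (ι : Type v)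
    [DecidableEq ι] (b : HilbertBasis ι ℂ H) (f : ι → (H →L[ℂ] ℂ)) (s : ℝ), 0 < s → s ≤ 2 →
    (∀ i v, f i v = inner ℂ (b i) v) → System s (fun i => b i) f

/-- the Banach space `ℓ^p` of complex families -/
abbrev Seq (ι : Type*) (p : ℝ≥0∞) : Type _ := lp (fun _ : ι => ℂ) p

/-- the unit vectors of `ℓ^p` -/
noncomputable def unitVector (p : ℝ≥0∞) (i : ι) : Seq ι p := lp.single p i (1 : ℂ)

/-- the `f i` are the coordinate functionals of `ℓ^p` -/
def IsCoordinates (p : ℝ≥0∞) [Fact (1 ≤ p)] (f : ι → (Seq ι p →L[ℂ] ℂ)) : Prop :=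
  ∀ (i : ι) (v : Seq ι p), f i v = v i

/-- the unit vectors and the functionals `f i` are a system -/
def IsUnitSystem (s : ℝ) (p : ℝ≥0∞) [Fact (1 ≤ p)] (f : ι → (Seq ι p →L[ℂ] ℂ)) : Prop :=
  System s (unitVector p) f

/-- (5) the unit vectors of `ℓ^p` are a system, `s ≤ p ≤ q` -/
def UnitVectors.{v} : Prop :=
  ∀ (ι : Type v) [DecidableEq ι] (s q : ℝ) (p : ℝ≥0∞) [Fact (1 ≤ p)], s.HolderConjugate q →
    p ≠ ⊤ → s ≤ p.toReal → p.toReal ≤ q →
    ∃ f : ι → (Seq ι p →L[ℂ] ℂ), IsCoordinates p f ∧ IsUnitSystem s p f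

end defs

section aux

open Pool.Agent.J4.H86.RD

variable {ι : Type*} [DecidableEq ι]

theorem sml_of {s q κ : ℝ} (hs : 0 < s) (hκ : 0 ≤ κ) {σ : ι → ℝ} (hσ : ∀ i, 0 < σ i)
    {B : ι → ι → ℂ} (hrow : ∀ x, Summable (fun w => ‖B x w‖ ^ q)) {F F' : Finset ι}
    (hF : F ⊆ F')
    (h : ∀ (A : Finset ι) (u : ι → ℂ),
      ∑ x ∈ A \ F, (‖∑ w ∈ A.erase x, B x w * u w‖ / σ x) ^ s ≤ κ * ∑ w ∈ A, ‖u w‖ ^ s) :
    Sml s q (ENNReal.ofReal κ) (fun a b => ((σ a : ℂ))⁻¹ * B a b) F' := by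
  have h0 : ∀ i, ((σ i : ℝ) : ℂ) ≠ 0 := fun i => by exact_mod_cast (hσ i).ne'
  refine ⟨fun x => ?_, fun A u => ?_⟩
  · have h1 := (hrow x).mul_left (‖((σ x : ℂ))⁻¹‖ ^ q)
    refine h1.congr fun w => ?_
    rw [norm_mul, Real.mul_rpow (norm_nonneg _) (norm_nonneg _)]
  · have h1 : ∀ x, ‖∑ w ∈ A.erase x, ((σ x : ℂ))⁻¹ * B x w * u w‖ₑ ^ s
        = ENNReal.ofReal ((‖∑ w ∈ A.erase x, B x w * u w‖ / σ x) ^ s) := by
      intro x
      have h2 : ∑ w ∈ A.erase x, ((σ x : ℂ))⁻¹ * B x w * u w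
          = ((σ x : ℂ))⁻¹ * ∑ w ∈ A.erase x, B x w * u w := by
        rw [Finset.mul_sum]
        exact Finset.sum_congr rfl fun w _ => by ring
      rw [h2, ← ofReal_norm, norm_mul, norm_inv, Complex.norm_real, Real.norm_of_nonneg (hσ x).le,
        ENNReal.ofReal_rpow_of_nonneg (by have := (hσ x).le; positivity) hs.le, inv_mul_eq_div]
    have h3 : ∑ w ∈ A, ‖u w‖ₑ ^ s = ENNReal.ofReal (∑ w ∈ A, ‖u w‖ ^ s) := by
      rw [ENNReal.ofReal_sum_of_nonneg (fun i _ => by positivity)]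
      refine Finset.sum_congr rfl fun w _ => ?_
      rw [← ofReal_norm, ENNReal.ofReal_rpow_of_nonneg (norm_nonneg _) hs.le]
    rw [h3, ← ENNReal.ofReal_mul hκ]
    calc ∑ x ∈ A \ F', ‖∑ w ∈ A.erase x, ((σ x : ℂ))⁻¹ * B x w * u w‖ₑ ^ s
        ≤ ∑ x ∈ A \ F, ‖∑ w ∈ A.erase x, ((σ x : ℂ))⁻¹ * B x w * u w‖ₑ ^ s :=
          Finset.sum_le_sum_of_subset (Finset.sdiff_subset_sdiff le_rfl hF)
      _ = ENNReal.ofReal (∑ x ∈ A \ F, (‖∑ w ∈ A.erase x, B x w * u w‖ / σ x) ^ s) := by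
          rw [ENNReal.ofReal_sum_of_nonneg
            (fun i _ => Real.rpow_nonneg (div_nonneg (norm_nonneg _) (hσ i).le) _)]
          exact Finset.sum_congr rfl fun x _ => h1 x
      _ ≤ _ := ENNReal.ofReal_le_ofReal (h A u)

end aux

theorem part_one {X : Type*} [NormedAddCommGroup X] [NormedSpace ℂ X] [CompleteSpace X] {ι : Type*}
    [DecidableEq ι] [Countable ι] [Nontrivial ι] {Ω : Type*} [MeasurableSpace Ω]
    (P : Measure Ω) [IsProbabilityMeasure P] (s q κ : ℝ) (hsq : s.HolderConjugate q) (hs2 : s < 2)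
    (hκ : 512 * κ < 1) (e : ι → X) (f : ι → (X →L[ℂ] ℂ)) (hS : System s e f)
    (σ : ι → ℝ) (lam : ι → Ω → ℂ) (hD : Disorder P s σ lam) (B : ι → ι → ℂ)
    (hB : SmallOffDiagonal s q κ σ B) (hB' : SmallOffDiagonal s q κ σ (fun x y => B y x))
    (T : Ω → (X →L[ℂ] X)) (hT : HasEntries P e f lam B T) :
    ∀ᵐ ω ∂P, HasHyperinvariantSubspace (T ω) := by
  obtain ⟨K, hK⟩ := hS.upper
  obtain ⟨F1, h1⟩ := hB.small
  obtain ⟨F2, h2⟩ := hB'.small
  have hs0 : 0 < s := hsq.pos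
  have hκ0 : 0 ≤ κ := by
    obtain ⟨i⟩ : Nonempty ι := inferInstance
    have h3 := h1 {i} (fun _ => 1)
    have h4 : 0 ≤ ∑ x ∈ {i} \ F1, (‖∑ w ∈ ({i} : Finset ι).erase x, B x w * 1‖ / σ x) ^ s :=
      Finset.sum_nonneg fun x _ => Real.rpow_nonneg (div_nonneg (norm_nonneg _) (hD.pos x).le) _
    have h5 := h4.trans h3
    simpa using h5
  have hκ' : 512 * ENNReal.ofReal κ < 1 := by
    rw [show (512 : ℝ≥0∞) = ENNReal.ofReal 512 by norm_num,
      ← ENNReal.ofReal_mul (by norm_num), ← ENNReal.ofReal_one]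
    exact (ENNReal.ofReal_lt_ofReal_iff (by norm_num)).2 hκ
  exact Pool.Agent.J4.H86.RD.main e f hsq hs2.le (fun A c => (hK A c).1) (fun A c => (hK A c).2)
    hS.dense hS.total hS.biorthogonal hκ' hD.pos B (F1 ∪ F2)
    (sml_of hs0 hκ0 hD.pos hB.row Finset.subset_union_left h1)
    (sml_of hs0 hκ0 hD.pos hB'.row Finset.subset_union_right h2)
    lam hD.meas hD.indep hD.bound T hT

/-- **Random diagonals plus operators on `ℓ^s` and `ℓ^q`.** -/
theorem result.{u, v, w} :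
    SmallPerturbations.{u, v, w} ∧ CompactPerturbations.{u, v, w} ∧ BoundedDensities ∧
      OrthonormalBases.{u, v} ∧ UnitVectors.{v} := by
  refine ⟨?_, ?_, ?_, ?_, ?_⟩
  · intro ι _ _ _ s q κ σ B hsq hs2 hκ hB hB' X _ _ _ Ω _ P _ e f lam T hS hD hT
    exact part_one P s q κ hsq hs2 hκ e f hS σ lam hD B hB hB' T hT
  · intro ι _ _ _ s q B hsq hs2 hB hB' ε hε
    have hv1 : Pool.Agent.J4.H86.RD.Vanish s B := hB.vanish
    have hv2 : Pool.Agent.J4.H86.RD.Vanish s (fun x y => B y x) := hB'.vanish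
    obtain ⟨σ, hσ, hσε, hσ0, F, hF⟩ := Pool.Agent.J4.H86.RD.cmp hsq.pos hv1 hv2
      (show (0 : ℝ) < 1 / 1024 by norm_num) hε
    refine ⟨σ, fun i => ⟨hσ i, hσε i⟩, hσ0, ?_⟩
    intro X _ _ _ Ω _ P _ e f lam T hS hD hT
    exact part_one P s q (1 / 1024) hsq hs2 (by norm_num) e f hS σ lam hD B
      ⟨hB.row, F, fun A u => (hF A u).1⟩ ⟨hB'.row, F, fun A u => (hF A u).2⟩ T hT
  · intro s ρ σ μ _ hs hs2 hρ hσ hμ h b
    have hc := Pool.Agent.J4.H86.RD.dens' s hs hs2 ρ hρ μ hμ b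
    have hσ0 : ENNReal.ofReal σ ^ s ≠ ⊤ := ENNReal.rpow_ne_top_of_nonneg hs.le ENNReal.ofReal_ne_top
    simp only [ENNReal.mul_rpow_of_nonneg _ _ hs.le]
    rw [lintegral_const_mul' _ _ hσ0]
    have h2s : 0 < 2 - s := by linarith
    calc ENNReal.ofReal σ ^ s * ∫⁻ u, ‖u - b‖ₑ⁻¹ ^ s ∂μ
        ≤ ENNReal.ofReal σ ^ s * ENNReal.ofReal (2 / (2 - s) * (Real.pi * ρ) ^ (s / 2)) := by
          gcongr
      _ = ENNReal.ofReal (2 / (2 - s) * (Real.pi * ρ * σ ^ 2) ^ (s / 2)) := by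
          rw [ENNReal.ofReal_rpow_of_nonneg hσ.le hs.le, ← ENNReal.ofReal_mul (by positivity)]
          congr 1
          rw [Real.mul_rpow (by positivity) (by positivity) (x := Real.pi * ρ), ← Real.rpow_natCast σ 2,
            ← Real.rpow_mul hσ.le]
          rw [show ((2 : ℕ) : ℝ) * (s / 2) = s by push_cast; ring]
          ring
      _ ≤ ENNReal.ofReal 1 := ENNReal.ofReal_le_ofReal h
      _ = 1 := ENNReal.ofReal_one
  · intro H _ _ _ ι _ b f s hs hs2 hf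
    have hf' : f = fun i => (innerSL ℂ (b i) : H →L[ℂ] ℂ) := by
      funext i
      ext v
      rw [hf, innerSL_apply_apply]
    subst hf'
    obtain ⟨h1, h2, h3, h4⟩ := Pool.Agent.J4.H86.RD.hb b hs hs2
    exact ⟨h1, h2, h3, 1, h4⟩
  · intro ι _ s q p _ hsq hp hs hq
    obtain ⟨f, h0, h1, h2, h3, h4⟩ := Pool.Agent.J4.H86.RD.Two.lp_system (ι := ι) hsq p hp hs hq
    exact ⟨f, h0, h1, h2, h3, 1, h4⟩

end Pool.Agent.Results.MP_f981b0_an.RandomDiagonalOperatorNorm
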