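import Pool.Agent.J4.H89.RP.Final3

/-!
# MP_f981b0_an: typical rank one perturbations of arbitrary operators

Let `T` be ANY bounded operator on a complex Banach space `X` of infinite dimension, and for `u ∈ X`, `v ∈ X*` let
`E (u, v)` be the set of the algebraically simple eigenvalues of `T + v(·) u` outside the spectrum of `T`.

(1) For all `(u, v)` in a dense open subset of `X × X*` the set `E (u, v)` is not empty. For all `(u, v)` in a residual
(hence dense) subset of `X × X*` a boundary point `c` of the spectrum is a limit point of `E (u, v)` if and only if it is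
not a pole of the resolvent of `T`; there are such points `c` if `T` is not algebraic.

(2) For EVERY `v ∈ X*` and all `u` in a residual subset of `X`, `E (u, v)` accumulates at all boundary points `c` of the
spectrum which are not eigenvalues of `T*` and for which `v` is not in the range of `c - T*`. If `X` is reflexive, then
for EVERY `u ∈ X` and all `v` in a residual subset of `X*`, `E (u, v)` accumulates at all boundary points `c` which are
not eigenvalues of `T` and for which `u` is not in the range of `c - T`.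

(3) For all `u`, `v` there are closed subspaces `V M`, `M ⊆ E (u, v)`, invariant under every operator commuting with
`T + v(·) u`, ordered as the sets `M`; `V M ≠ 0` if `M ≠ ∅`, `V M ≠ X` if `M` is finite or `M ≠ E (u, v)`, and `V M` has
infinite dimension and codimension if `M` and its complement in `E (u, v)` are infinite.

Proof. For `z` outside the spectrum let `R = (z - T)⁻¹`; then `z ∈ E (u, v)` if and only if `v (R u) = 1` and
`v (R² u) ≠ 0`. Let `W` be an open set that meets the boundary of the spectrum, or the whole plane, and suppose that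
`E (u, v)` does not meet `W` for the `(u, v)` in a ball with centre `(u₀, v₀)`. Then `v (R u) ≠ 1` there (a multiple
root can be made simple), and applying this to `u₀ + s a`, `v₀ + t b`, `|s|, |t| ≤ δ`, one gets
`‖R(z)‖ ≤ 3 δ⁻² |v₀ (R(z) u₀) - 1|`. So `G = (v₀ (R u₀) - 1)⁻²`, continued by `0` to the spectrum, is at most a
constant times the square of the distance from the spectrum, hence complex differentiable also at the points of the
spectrum: `G` is holomorphic in `W`. If `W = ℂ`, then `G` is a bounded entire function with limit `1` at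
infinity and with zeros, a contradiction. In general the zeros of `G` in `W` are the points of the spectrum, so the
boundary points in `W` are isolated, and by the estimate they are poles of the resolvent. (2) If only `u` varies, the
functionals `φ = v ∘ R(z) / (v (R(z) u₀) - 1)` are bounded, `φ ∘ (z - T) = g v`, `φ u₀ = 1 + g` with
`g = 1 / (v (R(z) u₀) - 1)`; a weak* limit for `z → c` gives an eigenvector of `T*` or a preimage of `v`.

Parts were written by helpers 92 (algebraic operators), 45 (openness, continuation, one functional fixed), 16 (the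
subspaces, one vector fixed), 55 (estimates), 18 (converse at the poles).
-/

set_option autoImplicit false

open Filter Metric

namespace Pool.Agent.Results.MP_f981b0_an.TypicalRankOnePerturbations

variable {X : Type} [NormedAddCommGroup X] [NormedSpace ℂ X]

/-- The operator `x ↦ T x + v(x) u`. -/
noncomputable def perturbed (T : X →L[ℂ] X) (u : X) (v : X →L[ℂ] ℂ) : X →L[ℂ] X :=
  T + v.smulRight u

/-- `z` is an eigenvalue of `A` of algebraic multiplicity one: there is an eigenvector `x`, and every `y` for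
which `A y - z y` is a multiple of `x` is itself a multiple of `x`. -/
def SimpleEigenvalue (A : X →L[ℂ] X) (z : ℂ) : Prop :=
  ∃ x : X, x ≠ 0 ∧ A x = z • x ∧ ∀ y : X, (∃ c : ℂ, A y - z • y = c • x) → ∃ c : ℂ, y = c • x

/-- `E (u, v)`: the simple eigenvalues of `T + v(·) u` outside the spectrum of `T`. -/
def newEigenvalues (T : X →L[ℂ] X) (u : X) (v : X →L[ℂ] ℂ) : Set ℂ :=
  {z | z ∉ spectrum ℂ T ∧ SimpleEigenvalue (perturbed T u v) z}

/-- `c` is a limit point of `S`. -/
def LimitPoint (S : Set ℂ) (c : ℂ) : Prop := ∀ ε : ℝ, 0 < ε → ∃ z ∈ S, z ≠ c ∧ ‖z - c‖ < ε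

/-- `c` is an isolated singularity of the resolvent and at most a pole: the points `z ≠ c` near `c` are not in the
spectrum, and `|z - c|^n ‖(z - T)⁻¹‖ ≤ C` for them. -/
def AtMostPole (T : X →L[ℂ] X) (c : ℂ) : Prop :=
  ∃ (n : ℕ) (C : ℝ), ∀ᶠ z in nhdsWithin c {c}ᶜ, z ∉ spectrum ℂ T ∧ ‖z - c‖ ^ n * ‖resolvent T z‖ ≤ C

/-- `p(T) = 0` for some nonzero polynomial `p`. -/
def Algebraic (T : X →L[ℂ] X) : Prop := ∃ p : Polynomial ℂ, p ≠ 0 ∧ Polynomial.aeval T p = 0

/-- `c` is an eigenvalue of the adjoint of `T`. -/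
def AdjointEigenvalue (T : X →L[ℂ] X) (c : ℂ) : Prop :=
  ∃ φ : X →L[ℂ] ℂ, φ ≠ 0 ∧ ∀ x, φ (T x) = c * φ x

/-- `v` is in the range of `c - T*`. -/
def InAdjointRange (T : X →L[ℂ] X) (c : ℂ) (v : X →L[ℂ] ℂ) : Prop :=
  ∃ φ : X →L[ℂ] ℂ, ∀ x, φ (c • x - T x) = v x

/-- `V` is closed and invariant under every bounded operator which commutes with `A`. -/
def Hyperinvariant (A : X →L[ℂ] X) (V : Submodule ℂ X) : Prop :=
  IsClosed (V : Set X) ∧ ∀ Q : X →L[ℂ] X, Q * A = A * Q → ∀ x ∈ V, Q x ∈ V

/-- **Typical rank one perturbations of an arbitrary bounded operator.** -/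
theorem result [CompleteSpace X] (hX : ¬ FiniteDimensional ℂ X) (T : X →L[ℂ] X) :
    -- (1) typical pairs
    (∃ D : Set (X × (X →L[ℂ] ℂ)), IsOpen D ∧ Dense D ∧
      ∀ p ∈ D, (newEigenvalues T p.1 p.2).Nonempty) ∧
    (∃ D ∈ residual (X × (X →L[ℂ] ℂ)), Dense D ∧ ∀ p ∈ D, ∀ c ∈ frontier (spectrum ℂ T),
      (LimitPoint (newEigenvalues T p.1 p.2) c ↔ ¬ AtMostPole T c)) ∧
    (¬ Algebraic T → ∃ c ∈ frontier (spectrum ℂ T), ¬ AtMostPole T c) ∧
    -- (2) the functional or, on a reflexive space, the vector is fixed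
    (∀ v : X →L[ℂ] ℂ, ∃ D ∈ residual X, Dense D ∧ ∀ u ∈ D, ∀ c ∈ frontier (spectrum ℂ T),
      ¬ AdjointEigenvalue T c → ¬ InAdjointRange T c v → LimitPoint (newEigenvalues T u v) c) ∧
    (Function.Surjective (NormedSpace.inclusionInDoubleDual ℂ X) →
      ∀ u : X, ∃ D ∈ residual (X →L[ℂ] ℂ), Dense D ∧ ∀ v ∈ D, ∀ c ∈ frontier (spectrum ℂ T),
      (¬ ∃ x : X, x ≠ 0 ∧ T x = c • x) → (¬ ∃ x : X, c • x - T x = u) →
      LimitPoint (newEigenvalues T u v) c) ∧
    -- (3) the hyperinvariant subspaces
    (∀ (u : X) (v : X →L[ℂ] ℂ), ∃ V : Set ℂ → Submodule ℂ X,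
      (∀ M ⊆ newEigenvalues T u v, Hyperinvariant (perturbed T u v) (V M)) ∧
      (∀ M ⊆ newEigenvalues T u v, ∀ N ⊆ newEigenvalues T u v, (V M ≤ V N ↔ M ⊆ N)) ∧
      (∀ M ⊆ newEigenvalues T u v, (M.Nonempty → V M ≠ ⊥) ∧
        ((M.Finite ∨ M ≠ newEigenvalues T u v) → V M ≠ ⊤)) ∧
      ∀ M ⊆ newEigenvalues T u v, M.Infinite → (newEigenvalues T u v \ M).Infinite →
        ¬ FiniteDimensional ℂ (V M) ∧ ¬ FiniteDimensional ℂ (X ⧸ V M)) := by
  obtain ⟨h1, h2, h3, h4, h5, h6⟩ := Pool.Agent.J4.H89.RP.final3 hX T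
  refine ⟨h1, h2, h3, fun v => ?_, fun hr u => ?_, h6⟩
  · obtain ⟨D, hD, hd, h⟩ := h4 v
    refine ⟨D, hD, hd, fun u hu c hc ha hi => h u hu c hc (fun φ hφ => ?_) hi⟩
    by_contra hne
    exact ha ⟨φ, hne, hφ⟩
  · obtain ⟨D, hD, hd, h⟩ := h5 hr u
    refine ⟨D, hD, hd, fun v hv c hc ha hi => h v hv c hc (fun x hx => ?_) hi⟩
    by_contra hne
    exact ha ⟨x, hne, hx⟩

end Pool.Agent.Results.MP_f981b0_an.TypicalRankOnePerturbations
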